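import Pool.Agent.Helper54.PT.LocG

/-!
# TG module N1: points near a node
-/

set_option autoImplicit false

namespace Pool.Agent.Helper54.PT

open Polynomial Finset Filter Topology Module Pool.Agent.Helper43.TW Pool.Agent.Helper47.BSD

section LocalTwo

universe u

variable {k : Type u} [NontriviallyNormedField k] [IsUltrametricDist k] [CompleteSpace k]
  {π : k} {ι : Type} [Fintype ι] [DecidableEq ι] {a : ι → ℕ} {E : ι → k} {w : ι → Cl 2 k}

/-- N1: points near a node -/
theorem ptData_node (hk : LF 2 π) (ha : ∀ i, ¬ 2 ∣ a i) (hs : ¬ 2 ∣ ∑ i, a i) {i₁ i₂ : ι}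
    (hne : i₁ ≠ i₂) {s : ℤ} (h1 : ∀ i j, i ≠ j → s(i, j) ≠ s(i₁, i₂) → ‖E i - E j‖ = ‖π‖ ^ (2 * s))
    (h2 : ‖E i₁ - E i₂‖ < ‖π‖ ^ (2 * s)) (h3 : E i₁ ≠ E i₂) (hw : PtData hk a E w) {i : ι}
    (hi₁ : i ≠ i₁) (hi₂ : i ≠ i₂) : nu hk (w i) = 0 := by
  obtain ⟨c, ρ, n, h⟩ := hw
  have ha1 : ∀ j, ((a j : ℕ) : ZMod 2) = 1 := fun j => by
    have h0 : ((a j : ℕ) : ZMod 2) ≠ 0 := fun h => ha j ((ZMod.natCast_eq_zero_iff _ _).1 h)
    revert h0
    generalize ((a j : ℕ) : ZMod 2) = x
    revert x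
    decide
  have hs1 : (∑ j, ((a j : ℕ) : ZMod 2)) ≠ 0 := fun h => hs
    ((ZMod.natCast_eq_zero_iff _ _).1 (by rw [Nat.cast_sum]; exact h))
  have hrel : ∑ j, (a j : ZMod 2) * nu hk (w j) = 0 := by
    have := congrArg (nu hk) h.rel
    rw [map_sum, map_zero] at this
    rw [← this]
    exact sum_congr rfl fun j _ => (nu_smul hk _ _).symm
  have hpair : ∀ j, j ≠ i₁ → j ≠ i₂ → ∀ j', s(j, j') ≠ s(i₁, i₂) := by
    intro j hj1 hj2 j' h
    rcases Sym2.eq_iff.1 h with h | h
    · exact hj1 h.1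
    · exact hj2 h.1
  rcases le_or_gt (‖π‖ ^ (2 * s)) ρ with hρ | hρ
  · have hall : ∀ j, ‖E j - E c‖ ≤ ρ := by
      intro j
      by_cases hjc : j = c
      · rw [hjc, sub_self, norm_zero]
        exact h.pos.le
      · by_cases hp : s(j, c) = s(i₁, i₂)
        · rcases Sym2.eq_iff.1 hp with ⟨h4, h5⟩ | ⟨h4, h5⟩
          · rw [h4, h5]
            exact h2.le.trans hρ
          · rw [h4, h5, norm_sub_rev]
            exact h2.le.trans hρ
        · rw [h1 j c hjc hp]
          exact hρ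
    rcases h.ins with hU | hR
    · obtain ⟨m, -, hm, -⟩ := hU
      have h4 : ∀ j, nu hk (w j) = n * m := fun j => hm j (hall j)
      have h5 : (∑ j, (a j : ZMod 2)) * (n * m) = 0 := by
        rw [sum_mul, ← hrel]
        exact sum_congr rfl fun j _ => by rw [h4 j]
      rw [h4 i]
      exact (mul_eq_zero.1 h5).resolve_left hs1
    · have h4 : ∀ j, nu hk (w j) = nu hk (w c) := fun j => by rw [hR.1 j (hall j)]
      have h5 : (∑ j, (a j : ZMod 2)) * nu hk (w c) = 0 := by
        rw [sum_mul, ← hrel]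
        exact sum_congr rfl fun j _ => by rw [h4 j]
      rw [h4 i]
      exact (mul_eq_zero.1 h5).resolve_left hs1
  · have hout : ∀ j, j ≠ c → s(j, c) ≠ s(i₁, i₂) → nu hk (w j) = 0 := by
      intro j hjc hp
      have h4 := h1 j c hjc hp
      rw [h.out j (by rw [h4]; exact hρ), nu_smul]
      have h5 : E c - E j ≠ 0 := by
        intro h6
        rw [norm_sub_rev, h6, norm_zero] at h4
        exact (zpow_pos hk.pos _).ne h4
      rw [nu_cl hk h5 (m := 2 * s) (by rw [norm_sub_rev, h4])]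
      have h6 : (((2 * s : ℤ)) : ZMod 2) = 0 := by
        push_cast
        have : (2 : ZMod 2) = 0 := by decide
        rw [this, zero_mul]
      rw [h6, mul_zero]
    by_cases hic : i = c
    · subst hic
      have h4 : ∀ j, j ≠ i → nu hk (w j) = 0 := by
        intro j hj
        refine hout j hj ?_
        rw [Sym2.eq_swap]
        exact hpair i hi₁ hi₂ j
      rw [sum_eq_single i (fun j _ hj => by rw [h4 j hj, mul_zero])
        (fun h => absurd (mem_univ i) h), ha1, one_mul] at hrel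
      exact hrel
    · exact hout i hic (hpair i hi₁ hi₂ c)

end LocalTwo

end Pool.Agent.Helper54.PT
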