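import Pool.Agent.Helper54.PT.LocG

/-!
# TG module N2: the special point in the split case
-/

set_option autoImplicit false

namespace Pool.Agent.Helper54.PT

open Polynomial Finset Filter Topology Module Pool.Agent.Helper43.TW Pool.Agent.Helper47.BSD

section LocSTwo

variable {k : Type} [NontriviallyNormedField k] [IsUltrametricDist k] [CompleteSpace k]
  {π : k} {ι : Type} [Fintype ι] [DecidableEq ι] {a : ι → ℕ}
  {K : Type} [Field K] {φ : K →+* k} {f : Cl 2 k →+ ZMod 2 × ZMod 2} {e : ι → K}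

/-- N2: the special point in the split case -/
theorem node_split (hk : LF 2 π) (ha : ∀ i, ¬ 2 ∣ a i) (hs : ¬ 2 ∣ ∑ i, a i)
    (hc : cl 2 (-1 : k) = 0) (hf : FC hk f)
    (hfo : ∀ x, (f x).1 = nu hk x) {i₁ i₂ : ι} (hne : i₁ ≠ i₂)
    (h1 : ∀ i j, i ≠ j → s(i, j) ≠ s(i₁, i₂) → ‖φ (e i - e j)‖ = 1)
    (h2 : ‖φ (e i₁ - e i₂)‖ < 1) (h3 : e i₁ ≠ e i₂) {D : K} (hD : D ≠ 0) {c : ZMod 2}
    (hDc : f (cl 2 (φ D)) = (0, c))
    (hsp : ∑ j ∈ (univ.erase i₁).erase i₂, f (cl 2 (φ (D * e i₁ - D * e j))) = 0) :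
    PtData hk a (fun i => φ (D * e i)) (fun j => if j = i₁ ∨ j = i₂ then cl 2 π else
      cl 2 (φ (D * e i₁ - D * e j))) := by
  have hD' : φ D ≠ 0 := (map_ne_zero φ).2 hD
  obtain ⟨m, hm⟩ := hk.disc (φ D) hD'
  have h20 : (2 : ZMod 2) = 0 := by decide
  have hm0 : (m : ZMod 2) = 0 := by
    rw [← nu_cl hk hD' hm, ← hfo, hDc]
  obtain ⟨s, hs'⟩ : ∃ s : ℤ, m = 2 * s := (ZMod.intCast_zmod_eq_zero_iff_dvd m 2).1 hm0
  have hpos := hk.pos
  have hdist : ∀ i j, ‖φ (D * e i) - φ (D * e j)‖ = ‖π‖ ^ m * ‖φ (e i - e j)‖ := by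
    intro i j
    rw [← hm, ← norm_mul, ← map_mul, ← map_sub, mul_sub]
  have hρ0 : (0 : ℝ) < ‖π‖ ^ (m + 1) := zpow_pos hpos _
  have hlt : ‖π‖ ^ (m + 1) < ‖π‖ ^ m := by
    rw [zpow_add_one₀ hpos.ne']
    exact mul_lt_of_lt_one_right (zpow_pos hpos _) hk.lt_one
  have hfar : ∀ j, j ≠ i₁ → j ≠ i₂ → ‖φ (D * e j) - φ (D * e i₁)‖ = ‖π‖ ^ m := by
    intro j hj1 hj2
    rw [hdist, h1 j i₁ hj1, mul_one]
    intro h
    rcases Sym2.eq_iff.1 h with h | h
    · exact hj1 h.1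
    · exact hj2 h.1
  have hnear : ‖φ (D * e i₂) - φ (D * e i₁)‖ ≤ ‖π‖ ^ (m + 1) := by
    have h4 : ‖φ (D * e i₂) - φ (D * e i₁)‖ < ‖π‖ ^ m := by
      rw [hdist, ← neg_sub (e i₁), map_neg, norm_neg]
      exact mul_lt_of_lt_one_right (zpow_pos hpos _) h2
    have h5 : φ (D * e i₂) - φ (D * e i₁) ≠ 0 := by
      rw [← map_sub, ← mul_sub]
      exact (map_ne_zero φ).2 (mul_ne_zero hD (sub_ne_zero.2 h3.symm))
    obtain ⟨m', hm'⟩ := hk.disc _ h5
    rw [hm'] at h4 ⊢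
    have h6 : m < m' := (zpow_lt_zpow_iff_right_of_lt_one₀ hpos hk.lt_one).1 h4
    exact zpow_le_zpow_right_of_le_one₀ hpos hk.lt_one.le (by omega)
  have hin : ∀ j, ‖φ (D * e j) - φ (D * e i₁)‖ ≤ ‖π‖ ^ (m + 1) → j = i₁ ∨ j = i₂ := by
    intro j hj
    by_contra hcon
    push Not at hcon
    rw [hfar j hcon.1 hcon.2] at hj
    exact absurd hj (not_le.2 hlt)
  have hπ : π ≠ 0 := pi_ne hk
  have hnπ : nu hk (cl 2 π) = 1 := by
    rw [nu_cl hk hπ (m := 1) (by rw [zpow_one]), Int.cast_one]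
  have hm1 : ((m + 1 : ℤ) : ZMod 2) = 1 := by
    push_cast
    rw [hm0, zero_add]
  refine ⟨i₁, ‖π‖ ^ (m + 1), 1, hρ0, ?_, ?_, Or.inl ⟨m + 1, rfl, ?_, ?_, ?_⟩⟩
  · intro j hj
    have hj1 : j ≠ i₁ := by
      rintro rfl
      rw [sub_self, norm_zero] at hj
      exact absurd hj (not_lt.2 hρ0.le)
    have hj2 : j ≠ i₂ := by
      rintro rfl
      exact absurd hj (not_lt.2 hnear)
    simp only [hj1, hj2, or_self, if_false, one_smul]
    rw [map_sub]
  · have ha1 : ∀ j, ((a j : ℕ) : ZMod 2) = 1 := fun j => by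
      have h0 : ((a j : ℕ) : ZMod 2) ≠ 0 := fun h => ha j ((ZMod.natCast_eq_zero_iff _ _).1 h)
      revert h0
      generalize ((a j : ℕ) : ZMod 2) = x
      revert x
      decide
    simp only [ha1, one_smul]
    rw [← add_sum_erase univ _ (mem_univ i₁), ← add_sum_erase (univ.erase i₁) _
      (mem_erase.2 ⟨hne.symm, mem_univ i₂⟩)]
    simp only [true_or, or_true, if_true]
    have h4 : ∑ j ∈ (univ.erase i₁).erase i₂, (if j = i₁ ∨ j = i₂ then cl 2 π else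
        cl 2 (φ (D * e i₁ - D * e j))) =
        ∑ j ∈ (univ.erase i₁).erase i₂, cl 2 (φ (D * e i₁ - D * e j)) := by
      refine sum_congr rfl fun j hj => ?_
      rw [mem_erase, mem_erase] at hj
      rw [if_neg]
      push Not
      exact ⟨hj.2.1, hj.1⟩
    rw [h4]
    have h5 : ∑ j ∈ (univ.erase i₁).erase i₂, cl 2 (φ (D * e i₁ - D * e j)) = 0 := by
      apply hf.inj
      rw [map_sum, map_zero, hsp]
    rw [h5, add_zero]
    have h6 := nsmul_eq_zero (ℓ := 2) (cl 2 π)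
    rwa [two_nsmul] at h6
  · intro j hj
    simp only [hin j hj, if_true]
    rw [hnπ, hm1, mul_one]
  · intro i j hi hj _
    simp only [hin j hj, hin i hi, if_true]
  · intro j hj
    simp only [hin j hj, if_true]
    rw [hm1, one_mul, one_smul, sub_self, smul_zero]

end LocSTwo

end Pool.Agent.Helper54.PT
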